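import Pool.Agent.U365.POW.J
import Pool.Agent.Results.MP_a41896_nt.MultiplicativeValues

/-!
# Vojta's inequality for stacky projective spaces, for all points of height near `s(m)`, `m - φ(m)` or `α m + β f(m)`

Let `K` be a number field, `n ≥ 1`, `r ≥ n + 1` hyperplanes in general position, `S` a finite set of primes, `κ ≥ 0`. Let `s(m)` be
the sum of the proper divisors of `m`, let `G` have steps bounded below by a positive constant and growth at most `v ^ d`,
`θ ≥ 0` and `e = d exponent(n, r, κ) / (n + 1) + θ < 1`. For a set of `m` of lower density at least `1 - e`, ALL points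
`x ∈ ℙ^n(K)` off the hyperplanes with `|H_K(x) ^ (n + 1) - G (s(m))| ≤ s(m) ^ θ` satisfy the inequality of Vojta's conjecture, for all
`L`, all orders of the root stacks and all sets of indices; and the same holds for `m - φ(m)`. More precisely this holds for almost
all `m` with a divisor `≥ m ^ (e + ρ)` which is a prime or the product of two different primes, and for the values
`g = α m + β f(m)` of multiplicative functions with `f p = p + c` at the primes, uniformly in `|α|, |β| ≤ N ^ δ` and with a power
saving in the number of the exceptional `m`.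

Proof. The number of the exceptional points has a power saving (starting theorem). Let `m = k v p` with large primes `p ≠ v`. Then
`g = A v p + B (v + p) + B c`, `A = α k + β f(k)`, `B = β c f(k)`, and so `(A v + B) (A p + B) = A g + B² - A B c`: for given `g`,
`k`, `α`, `β` there are only `N^o(1)` possibilities for `p` and `v`.

If the exponent `e` is smaller than `1/2`, no divisor is needed: the property holds for almost all `m` (for all `m ≤ N` but at
most `N / (log N) ^ A`, for every `A`), for all `α ≠ 0`, `β`. Here we use the divisors `D` of `m` without small prime factors: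
`α m` is congruent to `g` modulo `f(D)`; if the size of all such `D` is inconvenient, then `m = R D` where the prime factors of
`D` are so large that `D` lies in a short interval which is given by `R` and `g`.
-/

set_option autoImplicit false

namespace Pool.Agent.Results.MP_a41896_nt.AliquotValues

open NumberField IsDedekindDomain LinearAlgebra.Projectivization
open Pool.Agent.U365.POW (Law law_set law_mono)
open Pool.Agent.N733.TG (Expanding)
open StackyProjectiveSpaces (lin height truncated Integral logDisc exponent exceptional)
open Pool.Agent.Results.MP_a41896_nt.MultiplicativeValues (Vojta)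

/-- ALL points `x ∈ ℙ^n(K)` off the hyperplanes with `|H_K(x) ^ (n + 1) - G g| ≤ g ^ θ` satisfy the inequality. -/
def Near {K : Type} [Field K] [NumberField K] {n r : ℕ} (S : Finset (HeightOneSpectrum (𝓞 K)))
    (a : Fin r → Fin (n + 1) → K) (κ c : ℝ) (G : ℕ → ℝ) (θ : ℝ) (g : ℕ) : Prop :=
  ∀ x : ℙ K (Fin (n + 1) → K), (∀ i, lin (a i) x.rep ≠ 0) → |x.mulHeight ^ (n + 1) - G g| ≤ (g : ℝ) ^ θ → Vojta S a κ c x

/-- **Theorem.** Let `K` be a number field, `n ≥ 1`, `r ≥ n + 1`, `a_0, …, a_{r-1}` linear forms in `n + 1` variables over `K`, any
`n + 1` of them linearly independent, `S` a finite set of primes, `κ ≥ 0`. (The exponent `exponent(n, r, κ)` is smaller than `n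
+ 1` for `κ < r`.) Let `G` have steps `≥ a > 0` and growth at most `v ^ d`, `θ ≥ 0` and `e = d exponent(n, r, κ) / (n + 1) + θ <
1`. For every `c` the property `Near` holds for the values of similar functions as the aliquot sum with the exponent `e`
(`Law`): if this exponent is smaller than `1/2`, then (1) for ALL `α m + β f(m)` at almost all `m`, and so for `s(m)` and `m -
φ(m)` for almost all `m`; in general, (2) at almost all the `m` with a divisor `≥ m ^ (e + ρ)` which is a prime or the product
of two different primes, and for `s(m)` and `m - φ(m)` for a set of `m` of lower density at least `1 - (e)`. -/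
theorem result : ∀ (K : Type) [Field K] [NumberField K] (n r : ℕ), 1 ≤ n → n + 1 ≤ r → ∀ a : Fin r → Fin (n + 1) → K,
      (∀ I : Finset (Fin r), I.card = n + 1 → LinearIndependent K (fun i : I => a i)) →
      ∀ (S : Finset (HeightOneSpectrum (𝓞 K))) (κ : ℝ), 0 ≤ κ →
      (κ < r → exponent n r κ < n + 1) ∧
      ∀ (G : ℕ → ℝ) (d : ℝ), Expanding G d → ∀ θ : ℝ, 0 ≤ θ → d * (exponent n r κ / (n + 1)) + θ < 1 → ∀ c : ℝ,
        Law (d * (exponent n r κ / (n + 1)) + θ) (Near S a κ c G θ) := by
  intro K _ _ n r hn hr a ha S κ hκ
  refine ⟨fun h => StackyWindows.expo_lt hn hr h, fun G d hG θ hθ h1 c => ?_⟩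
  have hs : 0 ≤ exponent n r κ / (n + 1) := div_nonneg (StackyWindows.expo_nonneg hn hr hκ) (by positivity)
  have h2 := law_set (⋃ B : ℝ, exceptional S a κ (-c) B) (fun x => x.mulHeight ^ (n + 1)) hG hs hθ h1
    (fun ε hε => StackyWindows.count K hn hr a ha S κ (-c) ε hκ hε)
  have hm : ∀ g : ℕ, (∀ t : ℙ K (Fin (n + 1) → K), |t.mulHeight ^ (n + 1) - G g| ≤ (g : ℝ) ^ θ →
      t ∉ (⋃ B : ℝ, exceptional S a κ (-c) B)) → Near S a κ c G θ g := by
    intro g hg x hx hw
    by_contra hV
    unfold Vojta at hV
    simp only [not_forall] at hV
    obtain ⟨L, i1, i2, i3, e, J, he, hint, hneg⟩ := hV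
    refine hg x hw (Set.mem_iUnion.2 ⟨Real.exp (height x), hx, le_refl _, L, i1, i2, i3, e, J, he, hint, ?_⟩)
    rw [not_le] at hneg
    linarith
  exact law_mono h2 hm

end Pool.Agent.Results.MP_a41896_nt.AliquotValues
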