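import Mathlib
import Pool.Agent.U964.ML.Pts
import Pool.Agent.U964.ML.Hall

/-!
# Vojta's inequality for the stacky projective lines with two points of the same order, uniformly in the order

Let `α_1, …, α_q` be distinct points of `P¹(ℚ)`, `i ≠ j`, and `S` a finite set of primes. For `n ≥ 1` let `X_n` be the root
stack of order `n` of the projective line over `ℤ[1/S]` at the points `α_i` and `α_j`, and let `D` be the sum of the
other `q - 2` points, so that `K_X(D)` has degree `q - 2 - 2 / n`. The integral points of `X_n` are the rational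
points at which the linear forms of `α_i` and `α_j` have all their exponents at the primes outside `S`
divisible by `n` (if `S` contains the primes modulo which `α_i` and `α_j` coincide; `X_n` is Deligne-Mumford outside
the primes dividing `n`, and we require the same condition at these primes).

For every `δ > 0` we prove the inequality `N(D, x) ≥ (q - 2 - 2 / n - δ) h(x) - C` for the integral points `x` of
ALL the stacks `X_n`, `n ≥ 1`, with one constant `C`, the counting function `N` being taken without truncation; and the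
truncated inequality of the conjecture, with a constant independent of `n`, for those `x` at which the forms of
the points of `D` are square-free up to a bounded factor.

The proof uses a lower bound for linear forms in logarithms of rational numbers which is linear in the height
of the number with coefficient `n` (`U964.ML`), for large `n`, and Ridout's theorem for small `n`.
-/

set_option autoImplicit false

namespace Pool.Agent.Results.MP_a41896_nt.AllOrdersAtTwoPoints

/-- the value at `(u, v)` of the linear form which vanishes at `α` -/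
def form (α : ℤ × ℤ) (u v : ℤ) : ℤ := u * α.2 - v * α.1

/-- the logarithmic height of the point `(u : v)`, `u`, `v` coprime -/
noncomputable def height (u v : ℤ) : ℝ := Real.log (max |(u : ℝ)| |(v : ℝ)|)

/-- the truncated counting function of `α` outside `S` at `(u : v)`: the sum of `log p` over the primes `p`
outside `S` at which `(u : v)` and `α` coincide modulo `p` -/
noncomputable def counting (S : Finset ℕ) (α : ℤ × ℤ) (u v : ℤ) : ℝ :=
  ∑ p ∈ (form α u v).natAbs.primeFactors with p ∉ S, Real.log p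

/-- all exponents in the factorisation of `w` at the primes outside `S` are divisible by `n` -/
def Multiples (S : Finset ℕ) (n : ℕ) (w : ℤ) : Prop :=
  ∀ p : ℕ, p.Prime → p ∉ S → n ∣ w.natAbs.factorization p

/-- the divisor `D`: the points `α l`, `l ≠ i, j` -/
def others {q : ℕ} (i j : Fin q) : Finset (Fin q) := (Finset.univ.erase i).erase j

/-- `(u : v)` is an integral point of the stack with the points `α i`, `α j` of order `n` -/
def IsIntegral {q : ℕ} (S : Finset ℕ) (α : Fin q → ℤ × ℤ) (i j : Fin q) (n : ℕ) (u v : ℤ) : Prop :=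
  IsCoprime u v ∧ (∀ l, form (α l) u v ≠ 0) ∧ Multiples S n (form (α i) u v) ∧
    Multiples S n (form (α j) u v)

theorem result (S : Finset ℕ) (q : ℕ) (α : Fin q → ℤ × ℤ)
    (hdist : ∀ l m, l ≠ m → (α l).1 * (α m).2 - (α l).2 * (α m).1 ≠ 0) (i j : Fin q) (hij : i ≠ j)
    (B δ : ℝ) (hδ : 0 < δ) : ∃ C : ℝ, ∀ n : ℕ, 1 ≤ n → ∀ u v : ℤ, IsIntegral S α i j n u v →
      ((q : ℝ) - 2 - 2 / n - δ) * height u v ≤
        ∑ l ∈ others i j, Real.log |(form (α l) u v : ℝ)| + C ∧
      ((∀ l ∈ others i j, Real.log |(form (α l) u v : ℝ)| ≤ B + counting S (α l) u v) →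
        ((q : ℝ) - 2 - 2 / n - δ) * height u v ≤ ∑ l ∈ others i j, counting S (α l) u v + C) := by
  classical
  obtain ⟨η, hη⟩ : ∃ η : ℝ, η = min δ (1 / 2) := ⟨_, rfl⟩
  have hη0 : 0 < η := by rw [hη]; exact lt_min hδ (by norm_num)
  have hη1 : η < 1 := by rw [hη]; exact (min_le_right _ _).trans_lt (by norm_num)
  have hηδ : η ≤ δ := by rw [hη]; exact min_le_left _ _
  have hji : j ≠ i := Ne.symm hij
  -- the constants of the forms
  have hone : ∀ l : {l : Fin q // l ≠ i ∧ l ≠ j}, ∃ (C : ℝ) (N : ℕ), ∀ u v : ℤ,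
      form (α i) u v ≠ 0 → form (α j) u v ≠ 0 → form (α l) u v ≠ 0 →
      ∀ H : ℝ, 1 ≤ H → H = max |(u : ℝ)| |(v : ℝ)| → ∀ n : ℕ, 1 ≤ n →
      Multiples S n (form (α i) u v) → Multiples S n (form (α j) u v) →
      (N ≤ n → (1 - η) * Real.log H - C ≤ Real.log |(form (α l) u v : ℝ)|) ∧
      (1 - η) * Real.log H - C ≤ Real.log |(form (α l) u v : ℝ)| +
        (Real.log (Pool.Agent.U964.ML.root S n (form (α i) u v).natAbs) +
          Real.log (Pool.Agent.U964.ML.root S n (form (α j) u v).natAbs)) := fun l =>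
    Pool.Agent.U964.ML.one_form S (α i) (α j) (α l) (hdist i j hij) (hdist j l (Ne.symm l.2.2))
      (hdist l i l.2.1) η hη0 hη1
  choose Cf Nf hf using hone
  obtain ⟨A, hA⟩ : ∃ A : ℝ, A = ∑ l, (|((α l).1 : ℝ)| + |((α l).2 : ℝ)|) + 1 := ⟨_, rfl⟩
  have hAl : ∀ l, |((α l).1 : ℝ)| ≤ A ∧ |((α l).2 : ℝ)| ≤ A := by
    intro l
    have h1 := Finset.single_le_sum (f := fun l => |((α l).1 : ℝ)| + |((α l).2 : ℝ)|)
      (fun m _ => add_nonneg (abs_nonneg _) (abs_nonneg _)) (Finset.mem_univ l)
    have h2 := abs_nonneg ((α l).1 : ℝ)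
    have h3 := abs_nonneg ((α l).2 : ℝ)
    rw [hA]
    constructor <;> linarith
  have hA1 : 1 ≤ A := by
    rw [hA]
    have : 0 ≤ ∑ l, (|((α l).1 : ℝ)| + |((α l).2 : ℝ)|) :=
      Finset.sum_nonneg fun m _ => add_nonneg (abs_nonneg _) (abs_nonneg _)
    linarith
  obtain ⟨c, hc⟩ : ∃ c : ℝ, c = Real.log (2 * A) := ⟨_, rfl⟩
  have hc0 : 0 ≤ c := by rw [hc]; exact Real.log_nonneg (by linarith)
  obtain ⟨C1, hC1⟩ : ∃ C1 : ℝ, C1 = ∑ l, |Cf l| := ⟨_, rfl⟩
  have hC1l : ∀ l, Cf l ≤ C1 := fun l => by
    rw [hC1]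
    exact (le_abs_self _).trans
      (Finset.single_le_sum (f := fun l => |Cf l|) (fun m _ => abs_nonneg _) (Finset.mem_univ l))
  have hC10 : 0 ≤ C1 := by rw [hC1]; exact Finset.sum_nonneg fun m _ => abs_nonneg _
  refine ⟨q * c + 2 * c + C1 + q * |B|, ?_⟩
  intro n hn u v hint
  obtain ⟨hcop, hne, hMi, hMj⟩ := hint
  have hnr : (1:ℝ) ≤ n := by exact_mod_cast hn
  have hnr0 : (0:ℝ) < n := by linarith
  obtain ⟨H, hH⟩ : ∃ H : ℝ, H = max |(u : ℝ)| |(v : ℝ)| := ⟨_, rfl⟩
  have hH1 : 1 ≤ H := by
    have h1 : u ≠ 0 ∨ v ≠ 0 := by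
      by_contra h0
      push Not at h0
      obtain ⟨a, b, hab⟩ := hcop
      rw [h0.1, h0.2, mul_zero, mul_zero, add_zero] at hab
      exact zero_ne_one hab
    rw [hH]
    rcases h1 with h1 | h1
    · have := Int.one_le_abs h1
      exact le_max_of_le_left (by exact_mod_cast this)
    · have := Int.one_le_abs h1
      exact le_max_of_le_right (by exact_mod_cast this)
  have hH0 : 0 < H := by linarith
  obtain ⟨h, hh⟩ : ∃ h : ℝ, h = Real.log H := ⟨_, rfl⟩
  have hh0 : 0 ≤ h := by rw [hh]; exact Real.log_nonneg hH1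
  have hheight : height u v = h := by rw [height, ← hH, hh]
  rw [hheight]
  obtain ⟨f, hfdef⟩ : ∃ f : Fin q → ℝ, f = fun l => Real.log |(form (α l) u v : ℝ)| := ⟨_, rfl⟩
  obtain ⟨t, ht⟩ : ∃ t : Fin q → ℝ, t = fun l => counting S (α l) u v := ⟨_, rfl⟩
  -- two forms are not both small
  have htwo : ∀ l m, l ≠ m → h - c ≤ f l ∨ h - c ≤ f m := by
    intro l m hlm
    obtain ⟨M, hM⟩ : ∃ M : ℝ, M = max |(form (α l) u v : ℝ)| |(form (α m) u v : ℝ)| := ⟨_, rfl⟩
    have h1 := Pool.Agent.U964.ML.lf_two (α l) (α m) A (hAl l).1 (hAl l).2 (hAl m).1 (hAl m).2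
      (hdist l m hlm) u v M (by rw [hM]; exact le_max_left _ _) (by rw [hM]; exact le_max_right _ _)
    rw [← hH] at h1
    have hM0 : 0 < M := by
      by_contra h0
      rw [not_lt] at h0
      nlinarith
    have h2 := Real.log_le_log hH0 h1
    rw [Real.log_mul (by linarith) hM0.ne', ← hc, ← hh] at h2
    rcases le_total |(form (α l) u v : ℝ)| |(form (α m) u v : ℝ)| with h3 | h3
    · right
      rw [max_eq_right h3] at hM
      rw [hfdef]
      dsimp only
      rw [← hM]
      linarith
    · left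
      rw [max_eq_left h3] at hM
      rw [hfdef]
      dsimp only
      rw [← hM]
      linarith
  -- the bound with the roots
  obtain ⟨ρ, hρ0, hρ1, hρ2⟩ : ∃ ρ : ℝ, 0 ≤ ρ ∧ ρ ≤ 2 / (n:ℝ) * h + 2 * c ∧
      ∀ l, l ≠ i → l ≠ j → (1 - η) * h - C1 ≤ f l + ρ := by
    have hri : (1:ℝ) ≤ Pool.Agent.U964.ML.root S n (form (α i) u v).natAbs := by
      exact_mod_cast Pool.Agent.U964.ML.root_pos S n _
    have hrj : (1:ℝ) ≤ Pool.Agent.U964.ML.root S n (form (α j) u v).natAbs := by
      exact_mod_cast Pool.Agent.U964.ML.root_pos S n _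
    have hup : ∀ l, Multiples S n (form (α l) u v) →
        Real.log (Pool.Agent.U964.ML.root S n (form (α l) u v).natAbs) ≤ 1 / (n:ℝ) * h + c := by
      intro l hl
      have h1 := Pool.Agent.U964.ML.root_rpow S n (form (α l) u v).natAbs hn
        (Int.natAbs_ne_zero.2 (hne l)) hl
      have h2 : (((form (α l) u v).natAbs : ℕ) : ℝ) ≤ 2 * A * H := by
        rw [Nat.cast_natAbs, Int.cast_abs]
        have h3 : (form (α l) u v : ℝ) = u * (α l).2 - v * (α l).1 := by
          rw [form]
          push_cast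
          rfl
        rw [h3]
        have hu : |(u:ℝ)| ≤ H := by rw [hH]; exact le_max_left _ _
        have hv : |(v:ℝ)| ≤ H := by rw [hH]; exact le_max_right _ _
        have hA0 : 0 ≤ A := by linarith
        calc |(u:ℝ) * (α l).2 - v * (α l).1| ≤ |(u:ℝ) * (α l).2| + |(v:ℝ) * (α l).1| := abs_sub _ _
          _ = |(u:ℝ)| * |((α l).2:ℝ)| + |(v:ℝ)| * |((α l).1:ℝ)| := by rw [abs_mul, abs_mul]
          _ ≤ H * A + H * A := by
              have := (hAl l).1
              have := (hAl l).2
              gcongr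
          _ = _ := by ring
      have h4 : (1:ℝ) ≤ (((form (α l) u v).natAbs : ℕ) : ℝ) := by
        exact_mod_cast Int.natAbs_pos.2 (hne l)
      have h5 : (1:ℝ) ≤ Pool.Agent.U964.ML.root S n (form (α l) u v).natAbs := by
        exact_mod_cast Pool.Agent.U964.ML.root_pos S n _
      have h6 := Real.log_le_log (by linarith) h1
      rw [Real.log_rpow (by linarith)] at h6
      have h7 : Real.log (((form (α l) u v).natAbs : ℕ) : ℝ) ≤ c + h := by
        have h8 := Real.log_le_log (by linarith) h2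
        rwa [Real.log_mul (by linarith) hH0.ne', ← hc, ← hh] at h8
      have h9 : 1 / (n:ℝ) * Real.log (((form (α l) u v).natAbs : ℕ) : ℝ) ≤ 1 / (n:ℝ) * (c + h) :=
        mul_le_mul_of_nonneg_left h7 (by positivity)
      have h10 : 1 / (n:ℝ) * c ≤ c := by
        have h11 : 1 / (n:ℝ) ≤ 1 := by rw [div_le_one hnr0]; exact hnr
        nlinarith
      have h12 : 1 / (n:ℝ) * (c + h) = 1 / (n:ℝ) * c + 1 / (n:ℝ) * h := by ring
      linarith
    refine ⟨Real.log (Pool.Agent.U964.ML.root S n (form (α i) u v).natAbs) +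
        Real.log (Pool.Agent.U964.ML.root S n (form (α j) u v).natAbs),
      add_nonneg (Real.log_nonneg hri) (Real.log_nonneg hrj), ?_, ?_⟩
    · have h1 := hup i hMi
      have h2 := hup j hMj
      have h3 : 2 / (n:ℝ) * h = 1 / (n:ℝ) * h + 1 / (n:ℝ) * h := by ring
      rw [h3]
      linarith
    · intro l hli hlj
      have h1 := (hf ⟨l, hli, hlj⟩ u v (hne i) (hne j) (hne l) H hH1 hH n hn hMi hMj).2
      have h2 := hC1l ⟨l, hli, hlj⟩
      rw [← hh] at h1
      rw [hfdef]
      dsimp only at h1 ⊢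
      linarith
  -- the sum over the other forms
  obtain ⟨E, hE⟩ : ∃ E : Finset (Fin q), E = others i j := ⟨_, rfl⟩
  rw [← hE]
  rw [others] at hE
  have hjm : j ∈ (Finset.univ : Finset (Fin q)).erase i :=
    Finset.mem_erase.2 ⟨hji, Finset.mem_univ j⟩
  have hcard : (E.card : ℝ) = (q : ℝ) - 2 := by
    have h1 : E.card + 2 = q := by
      have h2 : (Finset.univ : Finset (Fin q)).card = q := Finset.card_fin q
      have h3 := Finset.card_erase_add_one (Finset.mem_univ i)
      have h4 := Finset.card_erase_add_one hjm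
      rw [hE]
      omega
    have h2 : ((E.card + 2 : ℕ) : ℝ) = q := by rw [h1]
    push_cast at h2
    linarith
  have hmemE : ∀ l ∈ E, l ≠ i ∧ l ≠ j := by
    intro l hl
    rw [hE, Finset.mem_erase, Finset.mem_erase] at hl
    exact ⟨hl.2.1, hl.1⟩
  have hq0 : (0:ℝ) ≤ q := Nat.cast_nonneg _
  have hmain : ((q:ℝ) - 2 - η) * h - q * c - C1 ≤ ∑ l ∈ E, f l + ρ := by
    by_cases hsm : ∃ l ∈ E, f l < h - c
    · obtain ⟨l, hlE, hl⟩ := hsm
      obtain ⟨hli, hlj⟩ := hmemE l hlE
      have h1 := hρ2 l hli hlj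
      have h2 : ((E.erase l).card : ℝ) * (h - c) ≤ ∑ m ∈ E.erase l, f m := by
        rw [← nsmul_eq_mul]
        refine Finset.card_nsmul_le_sum _ _ _ fun m hm => ?_
        rcases htwo l m (Ne.symm (Finset.mem_erase.1 hm).1) with h3 | h3
        · linarith
        · exact h3
      have h3 : ((E.erase l).card : ℝ) = (q:ℝ) - 3 := by
        have h4 := Finset.card_erase_add_one hlE
        have h5 : (((E.erase l).card + 1 : ℕ) : ℝ) = E.card := by rw [h4]
        push_cast at h5
        linarith
      have h4 := Finset.sum_erase_add E f hlE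
      have h5 : ((q:ℝ) - 3) * (h - c) = ((q:ℝ) - 3) * h - q * c + 3 * c := by ring
      rw [h3, h5] at h2
      have h6 : ((q:ℝ) - 2 - η) * h = ((q:ℝ) - 3) * h + (1 - η) * h := by ring
      rw [h6]
      linarith
    · push Not at hsm
      have h2 : (E.card : ℝ) * (h - c) ≤ ∑ m ∈ E, f m := by
        rw [← nsmul_eq_mul]
        exact Finset.card_nsmul_le_sum _ _ _ hsm
      rw [hcard] at h2
      have h5 : ((q:ℝ) - 2) * (h - c) = ((q:ℝ) - 2) * h - q * c + 2 * c := by ring
      rw [h5] at h2
      have h6 : ((q:ℝ) - 2 - η) * h = ((q:ℝ) - 2) * h - η * h := by ring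
      have h7 : 0 ≤ η * h := mul_nonneg hη0.le hh0
      rw [h6]
      linarith
  have hfin : ((q:ℝ) - 2 - 2 / n - δ) * h ≤ ((q:ℝ) - 2 - η) * h - 2 / n * h := by
    have h1 : (δ - η) * h ≥ 0 := mul_nonneg (by linarith) hh0
    nlinarith
  have hff : ∑ l ∈ E, Real.log |(form (α l) u v : ℝ)| = ∑ l ∈ E, f l := by rw [hfdef]
  have hqB : 0 ≤ q * |B| := mul_nonneg hq0 (abs_nonneg B)
  constructor
  · rw [hff]
    linarith
  · intro hB
    have hsumf : ∑ l ∈ E, f l ≤ q * |B| + ∑ l ∈ E, t l := by
      calc ∑ l ∈ E, f l ≤ ∑ l ∈ E, (|B| + t l) := by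
            refine Finset.sum_le_sum fun l hl => ?_
            have h1 := hB l hl
            have h2 := le_abs_self B
            rw [hfdef, ht]
            dsimp only
            linarith
        _ = (E.card : ℝ) * |B| + ∑ l ∈ E, t l := by
            rw [Finset.sum_add_distrib, Finset.sum_const, nsmul_eq_mul]
        _ ≤ q * |B| + ∑ l ∈ E, t l := by
            rw [hcard]
            have := abs_nonneg B
            nlinarith
    have hsT : ∑ l ∈ E, counting S (α l) u v = ∑ l ∈ E, t l := by rw [ht]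
    rw [hsT]
    linarith

end Pool.Agent.Results.MP_a41896_nt.AllOrdersAtTwoPoints
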