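import Pool.Agent.U536.CF.F
import Pool.Agent.Results.MP_a41896_nt.MultiplicativeValues

/-!
# Vojta's inequality with truncation for root stacks, for all points whose height is near an integer with a large common factor with a value of a multiplicative function

Let `f` be a positive multiplicative function of at most polynomial growth such that `f p ≤ M p` for the large primes `p`,
with different values at different large primes; for example Euler's function or the sum of the divisors. Let `G` have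
steps bounded below by a positive constant and growth at most `v^d`, for example `α v^d`. Let `b < 1` and `0 ≤ c < 2 b -
1`. Let `K` be a number field, `n ≥ 1`, `r ≥ n + 1`, `a_0, …, a_{r-1}` linear forms in `n + 1` variables over `K`, any `n
+ 1` of them linearly independent, `S` a finite set of primes, `κ ≥ 0`, `C` real. For all `m ≤ N` but `N exp (-(log
N)^c)`, for EVERY integer `w ≥ exp ((log N)^b)` with `gcd(w, f(m)) ≥ w^ρ`, ALL points `x ∈ ℙ^n(K)` off the hyperplanes
with `|H_K(x) ^ (n + 1) - G w| ≤ w ^ θ` satisfy Vojta's inequality `(κ - ∑_{i ∉ J} 1 / e_i) h(x) ≤ N^{(1)}(𝒟_J, x) + d(L)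
- C`, for all number fields `L ⊇ K`, all orders `e` for which `x` comes from an integral point of the root stack over `L`,
and all `J`, if `θ ≥ 0` and `d exponent(n, r, κ) / (n + 1) + θ < ρ ≤ 1` (`exponent(n, r, κ) < n + 1` for `κ < r`). The
integers `w` include all large divisors of `f(m)` and their multiples by small integers; for Euler's function, the orders
of the elements of the group of units modulo `m`.

Proof. Write `m = k u` with `u` squarefree and composed of primes larger than `N^(1/J)`, `J = (log N)^a`, and `k ≤ exp (4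
(log N)^a)`; this is possible for all `m ≤ N` but very few. If `v ∣ f(k) f(u)`, then `v = g v'` with `g ∣ f(k)` and `v' ∣
∏ f(p)`, and the number of such `u ≤ N / k` is at most `N / (k v')` times `(log N)^O(J)` times the number `τ_J(v')` of the
ordered factorizations of `v'` into `J` factors. The inequality `τ_J^q ≤ τ_K` for `K ≥ J^q` and Hölder's inequality bound
the sum over the sparse set of the exceptional `v`. The file `MultiplicativeValues` of the starting library treats the
integers `w = f(m)`, with `N / (log N)^U` exceptions.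
-/

set_option autoImplicit false

namespace Pool.Agent.Results.MP_a41896_nt.CommonFactors

open NumberField IsDedekindDomain LinearAlgebra.Projectivization
open StackyProjectiveSpaces (lin height truncated Integral logDisc exponent exceptional)
open Pool.Agent.N733.TG (LM Expanding lm_totient lm_sigma expanding_pow)
open Pool.Agent.U536.CF (Common common_windows common_of_dvd common_order)
open Pool.Agent.Results.MP_a41896_nt.MultiplicativeValues (Vojta)

/-- **Vojta's inequality with truncation for root stacks, for all points whose height is near an integer with a large common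
factor with a value of a multiplicative function.** Let `K` be a number field, `n ≥ 1`, `r ≥ n + 1`, `a_0, …, a_{r-1}`
linear forms in `n + 1` variables over `K`, any `n + 1` of them linearly independent, `S` a finite set of primes, `κ ≥ 0`,
`C` real. Let `f` be multiplicative and positive, of at most polynomial growth, with `f p ≤ M p` at the large primes, and
injective there. Let `G` have steps `≥ a > 0` and growth at most `v^d`. Let `b < 1` and `0 ≤ c < 2 b - 1`, `θ ≥ 0` and `d
exponent(n, r, κ) / (n + 1) + θ < ρ ≤ 1` (`exponent(n, r, κ) < n + 1` for `κ < r`). For all large `N`, for all `m ≤ N` but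
`N exp (-(log N)^c)`, for EVERY integer `w ≥ exp ((log N)^b)` with `gcd(w, f(m)) ≥ w^ρ`, ALL points `x ∈ ℙ^n(K)` off the
hyperplanes with `|H_K(x) ^ (n + 1) - G w| ≤ w ^ θ` satisfy Vojta's inequality `(κ - ∑_{i ∉ J} 1 / e_i) h(x) ≤
N^{(1)}(𝒟_J, x) + d(L) - C`, for all number fields `L ⊇ K`, all orders `e` for which `x` comes from an integral point of
the root stack over `L`, and all `J`. All divisors `w ≥ exp ((log N)^b)` of `f(m)` are such integers `w`, and for Euler's
function the orders `≥ exp ((log N)^b)` of the units modulo `m`. Euler's function and the sum of the divisors are examples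
of `f`, and `α v^d` with `α > 0`, `d ≥ 1` is an example of `G`. -/
theorem result :
    (∀ (K : Type) [Field K] [NumberField K] (n r : ℕ), 1 ≤ n → n + 1 ≤ r → ∀ a : Fin r → Fin (n + 1) → K,
      (∀ I : Finset (Fin r), I.card = n + 1 → LinearIndependent K (fun i : I => a i)) →
      ∀ (S : Finset (HeightOneSpectrum (𝓞 K))) (κ : ℝ), 0 ≤ κ →
      (κ < r → exponent n r κ < n + 1) ∧
      ∀ f : ℕ → ℕ, LM f → ∀ (G : ℕ → ℝ) (d : ℝ), Expanding G d → ∀ θ ρ b c : ℝ, 0 ≤ θ →
        d * (exponent n r κ / (n + 1)) + θ < ρ → ρ ≤ 1 → b < 1 → 0 ≤ c → c < 2 * b - 1 → ∀ (C : ℝ),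
        ∃ N₀ : ℕ, ∀ N : ℕ, N₀ ≤ N →
        ({m : ℕ | 1 ≤ m ∧ m ≤ N ∧ ¬ ∀ w : ℕ, Common f b ρ N m w → ∀ x : ℙ K (Fin (n + 1) → K),
          (∀ i, lin (a i) x.rep ≠ 0) → |x.mulHeight ^ (n + 1) - G w| ≤ (w : ℝ) ^ θ →
            Vojta S a κ C x}.ncard : ℝ) ≤ N * Real.exp (-(Real.log N ^ c))) ∧
    (LM Nat.totient ∧ LM (fun m => ∑ d ∈ m.divisors, d)) ∧
    (∀ α d : ℝ, 0 < α → 1 ≤ d → Expanding (fun v => α * (v : ℝ) ^ d) d) ∧
    (∀ (f : ℕ → ℕ) (b ρ : ℝ) (N m w : ℕ), ρ ≤ 1 → Real.exp (Real.log N ^ b) ≤ (w : ℝ) → w ∣ f m → Common f b ρ N m w) ∧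
    ∀ (b ρ : ℝ) (N m : ℕ), ρ ≤ 1 → ∀ x : (ZMod m)ˣ, Real.exp (Real.log N ^ b) ≤ (orderOf x : ℝ) →
      Common Nat.totient b ρ N m (orderOf x) := by
  refine ⟨?_, ⟨lm_totient, lm_sigma⟩, fun α d hα hd => expanding_pow hα hd, fun f b ρ N m w hρ hw hd => common_of_dvd hρ hw hd,
    fun b ρ N m hρ x hx => common_order hρ x hx⟩
  refine fun K _ _ n r hn hr a ha S κ hκ => ⟨fun h => StackyWindows.expo_lt hn hr h,
    fun f hf G d hG θ ρ b c hθ h1 hρ hb hc hcb C => ?_⟩
  have hs : 0 ≤ exponent n r κ / (n + 1) := div_nonneg (StackyWindows.expo_nonneg hn hr hκ) (by positivity)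
  obtain ⟨N₀, hN₀⟩ := common_windows (⋃ B : ℝ, exceptional S a κ (-C) B) (fun x => x.mulHeight ^ (n + 1)) hf hG hs hθ h1
    hρ hb hc hcb (fun ε hε => StackyWindows.count K hn hr a ha S κ (-C) ε hκ hε)
  refine ⟨N₀, fun N hN => le_trans ?_ (hN₀ N hN)⟩
  have hsub : {m : ℕ | 1 ≤ m ∧ m ≤ N ∧ ¬ ∀ w : ℕ, Common f b ρ N m w → ∀ x : ℙ K (Fin (n + 1) → K),
      (∀ i, lin (a i) x.rep ≠ 0) → |x.mulHeight ^ (n + 1) - G w| ≤ (w : ℝ) ^ θ → Vojta S a κ C x} ⊆
      {m : ℕ | 1 ≤ m ∧ m ≤ N ∧ ∃ w : ℕ, Common f b ρ N m w ∧ ∃ t ∈ (⋃ B : ℝ, exceptional S a κ (-C) B),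
        |t.mulHeight ^ (n + 1) - G w| ≤ (w : ℝ) ^ θ} := by
    rintro m ⟨h2, h3, h4⟩
    refine ⟨h2, h3, ?_⟩
    simp only [not_forall] at h4
    obtain ⟨w, hw0, x, hx, hw, hV⟩ := h4
    unfold Vojta at hV
    simp only [not_forall] at hV
    obtain ⟨L, i1, i2, i3, e, J, he, hint, hneg⟩ := hV
    refine ⟨w, hw0, x, Set.mem_iUnion.2 ⟨Real.exp (height x), hx, le_refl _, L, i1, i2, i3, e, J, he, hint, ?_⟩, hw⟩
    rw [not_le] at hneg
    linarith
  have hfin : {m : ℕ | 1 ≤ m ∧ m ≤ N ∧ ∃ w : ℕ, Common f b ρ N m w ∧ ∃ t ∈ (⋃ B : ℝ, exceptional S a κ (-C) B),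
      |t.mulHeight ^ (n + 1) - G w| ≤ (w : ℝ) ^ θ}.Finite :=
    (Set.finite_Icc 1 N).subset fun m hm => ⟨hm.1, hm.2.1⟩
  exact_mod_cast Set.ncard_le_ncard hsub hfin

end Pool.Agent.Results.MP_a41896_nt.CommonFactors
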