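import Pool.Agent.U536.DS.F
import Pool.Agent.Results.MP_a41896_nt.MultiplicativeValues

/-!
# Vojta's inequality with truncation for root stacks, for all points whose height is near an integral combination of two
divisors of a value of a multiplicative function

Let `f` be a positive multiplicative function of at most polynomial growth such that `f p ≤ M p` for the large primes `p`,
with different values at different large primes; for example Euler's function or the sum of the divisors. Let `G` have steps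
bounded below by a positive constant and growth at most `v^d`, for example `α v^d`. Let `b < 1` and `0 ≤ c < 2 b - 1`. Let
`K` be a number field, `n ≥ 1`, `r ≥ n + 1`, `a_0, …, a_{r-1}` linear forms in `n + 1` variables over `K`, any `n + 1` of
them linearly independent, `S` a finite set of primes, `κ ≥ 0`, `C` real. For all `m ≤ N` but `N exp (-(log N)^c)`, for
EVERY integer `w ≥ exp ((log N)^b)` of the form `w = u s + v t` with divisors `s`, `t` of `f(m)` and integers `|u|, |v| ≤
exp ((log N)^θ)`, ALL points `x ∈ ℙ^n(K)` off the hyperplanes with `|H_K(x) ^ (n + 1) - G w| ≤ w ^ δ` satisfy Vojta's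
inequality `(κ - ∑_{i ∉ J} 1 / e_i) h(x) ≤ N^{(1)}(𝒟_J, x) + d(L) - C`, for all number fields `L ⊇ K`, all orders `e` for
which `x` comes from an integral point of the root stack over `L`, and all `J`, if `δ ≥ 0` and `d exponent(n, r, κ) / (n +
1) + δ < 1`, `θ < b` (`exponent(n, r, κ) < n + 1` for `κ < r`). The integers `w` include all large divisors of `f(m)` and
the large sums and differences of ANY two divisors of `f(m)`; for Euler's function, those of the orders of any two units
modulo `m`.

Proof. Write `m = k u` with `u` squarefree and composed of primes larger than `N^(1/J)`, `J = (log N)^a`, and `k ≤ exp (4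
(log N)^a)`; this is possible for all `m ≤ N` but very few. If `v ∣ f(k) f(u)`, then `v = g v'` with `g ∣ f(k)` and `v' ∣ ∏
f(p)`, and the number of such `u ≤ N / k` is at most `N / (k v')` times `(log N)^O(J)` times the number `τ_J(v')` of the
ordered factorizations of `v'` into `J` factors. Take for `v` the least common multiple of `s` and `t`: the sum of `1 / [s,
t]` over the pairs `s, t ≤ X` with `u s + v t = w` is at most `4 U (1 + log X) τ(w) / w` if `|u|, |v| ≤ U`; the inequality
`τ_J^q ≤ τ_K` for `K ≥ J^q` and Hölder's inequality bound the sum over the pairs with exceptional `w`. The integers of the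
hand-in `CommonFactors` of this page have a large common factor with `f(m)`; the sums and differences of two divisors of
`f(m)` have in general none. The file `MultiplicativeValues` of the starting library treats the integers `w = f(m)` only,
with `N / (log N)^U` exceptions.
-/

set_option autoImplicit false

namespace Pool.Agent.Results.MP_a41896_nt.DivisorSums

open NumberField IsDedekindDomain LinearAlgebra.Projectivization
open StackyProjectiveSpaces (lin height truncated Integral logDisc exponent exceptional)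
open Pool.Agent.N733.TG (LM Expanding lm_totient lm_sigma expanding_pow)
open Pool.Agent.U536.DS (Comb comb_windows comb_pm comb_orders)
open Pool.Agent.Results.MP_a41896_nt.MultiplicativeValues (Vojta)

/-- **Vojta's inequality with truncation for root stacks, for all points whose height is near an integral combination of two
divisors of a value of a multiplicative function.** Let `K` be a number field, `n ≥ 1`, `r ≥ n + 1`, `a_0, …, a_{r-1}`
linear forms in `n + 1` variables over `K`, any `n + 1` of them linearly independent, `S` a finite set of primes, `κ ≥ 0`,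
`C` real. Let `f` be multiplicative and positive, of at most polynomial growth, with `f p ≤ M p` at the large primes, and
injective there. Let `G` have steps `≥ a > 0` and growth at most `v^d`. Let `b < 1` and `0 ≤ c < 2 b - 1`, `δ ≥ 0` and `d
exponent(n, r, κ) / (n + 1) + δ < 1`, `θ < b` (`exponent(n, r, κ) < n + 1` for `κ < r`). For all large `N`, for all `m ≤ N`
but `N exp (-(log N)^c)`, for EVERY integer `w ≥ exp ((log N)^b)` of the form `w = u s + v t` with divisors `s`, `t` of
`f(m)` and integers `|u|, |v| ≤ exp ((log N)^θ)`, ALL points `x ∈ ℙ^n(K)` off the hyperplanes with `|H_K(x) ^ (n + 1) - G w|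
≤ w ^ δ` satisfy Vojta's inequality `(κ - ∑_{i ∉ J} 1 / e_i) h(x) ≤ N^{(1)}(𝒟_J, x) + d(L) - C`, for all number fields `L ⊇
K`, all orders `e` for which `x` comes from an integral point of the root stack over `L`, and all `J`. All the sums and
differences `≥ exp ((log N)^b)` of two divisors of `f(m)` are such integers `w`, and for Euler's function those of the
orders of two units modulo `m`. Euler's function and the sum of the divisors are examples of `f`, and `α v^d` with `α > 0`,
`d ≥ 1` is an example of `G`. -/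
theorem result :
    (∀ (K : Type) [Field K] [NumberField K] (n r : ℕ), 1 ≤ n → n + 1 ≤ r → ∀ a : Fin r → Fin (n + 1) → K,
      (∀ I : Finset (Fin r), I.card = n + 1 → LinearIndependent K (fun i : I => a i)) →
      ∀ (S : Finset (HeightOneSpectrum (𝓞 K))) (κ : ℝ), 0 ≤ κ →
      (κ < r → exponent n r κ < n + 1) ∧
      ∀ f : ℕ → ℕ, LM f → ∀ (G : ℕ → ℝ) (d : ℝ), Expanding G d → ∀ δ θ b c : ℝ, 0 ≤ δ →
        d * (exponent n r κ / (n + 1)) + δ < 1 → θ < b → b < 1 → 0 ≤ c → c < 2 * b - 1 → ∀ (C : ℝ),
        ∃ N₀ : ℕ, ∀ N : ℕ, N₀ ≤ N →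
        ({m : ℕ | 1 ≤ m ∧ m ≤ N ∧ ¬ ∀ w : ℕ, Comb f b θ N m w → ∀ x : ℙ K (Fin (n + 1) → K),
          (∀ i, lin (a i) x.rep ≠ 0) → |x.mulHeight ^ (n + 1) - G w| ≤ (w : ℝ) ^ δ →
            Vojta S a κ C x}.ncard : ℝ) ≤ N * Real.exp (-(Real.log N ^ c))) ∧
    (LM Nat.totient ∧ LM (fun m => ∑ d ∈ m.divisors, d)) ∧
    (∀ α d : ℝ, 0 < α → 1 ≤ d → Expanding (fun v => α * (v : ℝ) ^ d) d) ∧
    (∀ (f : ℕ → ℕ) (b θ : ℝ) (N m s t : ℕ), s ∣ f m → t ∣ f m →
      (Real.exp (Real.log N ^ b) ≤ ((s + t : ℕ) : ℝ) → Comb f b θ N m (s + t)) ∧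
      (Real.exp (Real.log N ^ b) ≤ ((s - t : ℕ) : ℝ) → Comb f b θ N m (s - t)) ∧
      (Real.exp (Real.log N ^ b) ≤ (s : ℝ) → Comb f b θ N m s)) ∧
    ∀ (b θ : ℝ) (N m : ℕ) (x y : (ZMod m)ˣ),
      (Real.exp (Real.log N ^ b) ≤ ((orderOf x + orderOf y : ℕ) : ℝ) → Comb Nat.totient b θ N m (orderOf x + orderOf y)) ∧
      (Real.exp (Real.log N ^ b) ≤ ((orderOf x - orderOf y : ℕ) : ℝ) → Comb Nat.totient b θ N m (orderOf x - orderOf y)) := by
  refine ⟨?_, ⟨lm_totient, lm_sigma⟩, fun α d hα hd => expanding_pow hα hd, fun f b θ N m s t hs ht => comb_pm hs ht,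
    fun b θ N m x y => comb_orders x y⟩
  refine fun K _ _ n r hn hr a ha S κ hκ => ⟨fun h => StackyWindows.expo_lt hn hr h,
    fun f hf G d hG δ θ b c hδ h1 hθ hb hc hcb C => ?_⟩
  have hs : 0 ≤ exponent n r κ / (n + 1) := div_nonneg (StackyWindows.expo_nonneg hn hr hκ) (by positivity)
  obtain ⟨N₀, hN₀⟩ := comb_windows (⋃ B : ℝ, exceptional S a κ (-C) B) (fun x => x.mulHeight ^ (n + 1)) hf hG hs hδ h1
    hθ hb hc hcb (fun ε hε => StackyWindows.count K hn hr a ha S κ (-C) ε hκ hε)
  refine ⟨N₀, fun N hN => le_trans ?_ (hN₀ N hN)⟩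
  have hsub : {m : ℕ | 1 ≤ m ∧ m ≤ N ∧ ¬ ∀ w : ℕ, Comb f b θ N m w → ∀ x : ℙ K (Fin (n + 1) → K),
      (∀ i, lin (a i) x.rep ≠ 0) → |x.mulHeight ^ (n + 1) - G w| ≤ (w : ℝ) ^ δ → Vojta S a κ C x} ⊆
      {m : ℕ | 1 ≤ m ∧ m ≤ N ∧ ∃ w : ℕ, Comb f b θ N m w ∧ ∃ t ∈ (⋃ B : ℝ, exceptional S a κ (-C) B),
        |t.mulHeight ^ (n + 1) - G w| ≤ (w : ℝ) ^ δ} := by
    rintro m ⟨h2, h3, h4⟩
    refine ⟨h2, h3, ?_⟩
    simp only [not_forall] at h4
    obtain ⟨w, hw0, x, hx, hw, hV⟩ := h4
    unfold Vojta at hV
    simp only [not_forall] at hV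
    obtain ⟨L, i1, i2, i3, e, J, he, hint, hneg⟩ := hV
    refine ⟨w, hw0, x, Set.mem_iUnion.2 ⟨Real.exp (height x), hx, le_refl _, L, i1, i2, i3, e, J, he, hint, ?_⟩, hw⟩
    rw [not_le] at hneg
    linarith
  have hfin : {m : ℕ | 1 ≤ m ∧ m ≤ N ∧ ∃ w : ℕ, Comb f b θ N m w ∧ ∃ t ∈ (⋃ B : ℝ, exceptional S a κ (-C) B),
      |t.mulHeight ^ (n + 1) - G w| ≤ (w : ℝ) ^ δ}.Finite :=
    (Set.finite_Icc 1 N).subset fun m hm => ⟨hm.1, hm.2.1⟩
  exact_mod_cast Set.ncard_le_ncard hsub hfin

end Pool.Agent.Results.MP_a41896_nt.DivisorSums
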